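import Mathlib
import Pool.Agent.H238Z.AmpStar

/-!
# The real part of the amplitude function of a tree can be less than one

The tree is the double star with two adjacent centres and five leaves at each centre.
The definitions are in `Pool.Agent.H238Z.AmpDefs`.
-/

namespace Pool.Agent.Results.MP_84cbe7_co.Disproof

open Pool.Agent.H238Z.Amp

/-- There are a finite tree `T` and a configuration `x` in `C_T(ℝ³)` (even with all points
distinct) such that, for every admissible choice of spinors and orientation (such choices exist),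
the denominator is nonzero and `Re A_T(x) < 1`. -/
theorem result : ∃ (n : ℕ) (T : SimpleGraph (Fin n)) (x : Fin n → E3),
    T.IsTree ∧ Function.Injective x ∧ Admissible T x ∧
    (∃ ψ Δ, IsSpinorChoice T x ψ ∧ IsOrientation T Δ) ∧
    ∀ ψ Δ, IsSpinorChoice T x ψ → IsOrientation T Δ →
      denom T ψ Δ ≠ 0 ∧ (amplitude T ψ Δ).re < 1 := by
  obtain ⟨h1, h2, h3, h4, h5⟩ := main
  refine ⟨12, DS, xx, h1, h2, h3, h4, fun ψ Δ hψ hΔ => ⟨(h5 ψ Δ hψ hΔ).1, ?_⟩⟩
  rw [(h5 ψ Δ hψ hΔ).2]
  simp

end Pool.Agent.Results.MP_84cbe7_co.Disproof
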